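import Pool.Agent.Y154.BE.Main

set_option autoImplicit false

open Finset
open scoped Pointwise

namespace Pool.Agent.Results.MP_be00de_co.SmallEnergyLoss

open Pool.Agent.Results.MP_be00de_co.LogLogDoubling

/-- **Theorem.** Write `θ = (101 / 299)^j`, which is as small as we please. Let `A` be a finite
nonempty subset of an abelian group with `E(A) ≥ |A|^3 / K`. Then there is a nonempty `B ⊆ A` with
`|B| ≥ |A| / (3 K^(100 + θ))`, doubling at most `e^(40 j + 56) K^(16 j + 20)` and normalised energy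
at least that of `A` times `(|A| / |B|)^(1/100) / (30 K^(2 θ))`. -/
theorem result {G : Type*} [AddCommGroup G] [DecidableEq G] (j : ℕ) (A : Finset G)
    (hA : A.Nonempty) (K : ℝ) (hK : 1 ≤ K) (hE : (A.card : ℝ) ^ 3 / K ≤ (energy A : ℝ)) :
    ∃ B : Finset G, B ⊆ A ∧ B.Nonempty ∧
      (A.card : ℝ) / (3 * K ^ (100 + (101 / 299) ^ j : ℝ)) ≤ (B.card : ℝ) ∧
      (energy A : ℝ) / (A.card : ℝ) ^ 3 * ((A.card : ℝ) / (B.card : ℝ)) ^ (1 / 100 : ℝ) ≤
        30 * K ^ (2 * (101 / 299) ^ j : ℝ) * ((energy B : ℝ) / (B.card : ℝ) ^ 3) ∧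
      ((B + B).card : ℝ) ≤
        Real.exp (40 * (j : ℝ) + 56) * K ^ (16 * j + 20) * (B.card : ℝ) := by
  obtain ⟨B, hBA, hB, hmax⟩ := exists_ext hA
  have ha : (0 : ℝ) < A.card := by exact_mod_cast Finset.card_pos.2 hA
  have hb := hB.card_pos
  have hK0 : 0 < K := by linarith
  have hba : (B.card : ℝ) ≤ A.card := by exact_mod_cast Finset.card_le_card hBA
  have heb := T_pos hB.1
  have hea := T_pos hA
  have hcube := T_cube B
  simp only [energy_eq] at hE ⊢
  -- the extremal set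
  have hen : T A A A A / (A.card : ℝ) ^ 3 * ((A.card : ℝ) / B.card) ^ (1 / 100 : ℝ) ≤
      T B B B B / (B.card : ℝ) ^ 3 := by
    have e1 : (A.card : ℝ) ^ 3 = (A.card : ℝ) ^ (299 / 100 : ℝ) * (A.card : ℝ) ^ (1 / 100 : ℝ) := by
      rw [← Real.rpow_add ha]
      norm_num
    have e2 : (B.card : ℝ) ^ 3 = (B.card : ℝ) ^ (299 / 100 : ℝ) * (B.card : ℝ) ^ (1 / 100 : ℝ) := by
      rw [← Real.rpow_add hb]
      norm_num
    have ha1 : 0 < (A.card : ℝ) ^ (1 / 100 : ℝ) := Real.rpow_pos_of_pos ha _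
    have hb1 : 0 < (B.card : ℝ) ^ (1 / 100 : ℝ) := Real.rpow_pos_of_pos hb _
    have ha2 : 0 < (A.card : ℝ) ^ (299 / 100 : ℝ) := Real.rpow_pos_of_pos ha _
    have hb2 : 0 < (B.card : ℝ) ^ (299 / 100 : ℝ) := Real.rpow_pos_of_pos hb _
    rw [e1, e2, Real.div_rpow ha.le hb.le]
    have e3 : T A A A A / ((A.card : ℝ) ^ (299 / 100 : ℝ) * (A.card : ℝ) ^ (1 / 100 : ℝ)) *
        ((A.card : ℝ) ^ (1 / 100 : ℝ) / (B.card : ℝ) ^ (1 / 100 : ℝ)) =
        T A A A A / (A.card : ℝ) ^ (299 / 100 : ℝ) / (B.card : ℝ) ^ (1 / 100 : ℝ) := by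
      field_simp
    have e4 : T B B B B / ((B.card : ℝ) ^ (299 / 100 : ℝ) * (B.card : ℝ) ^ (1 / 100 : ℝ)) =
        T B B B B / (B.card : ℝ) ^ (299 / 100 : ℝ) / (B.card : ℝ) ^ (1 / 100 : ℝ) := by
      field_simp
    rw [e3, e4]
    exact div_le_div_of_nonneg_right hmax hb1.le
  set a : ℝ := (A.card : ℝ) with had
  set b : ℝ := (B.card : ℝ) with hbd
  set eA : ℝ := T A A A A with heA
  set eB : ℝ := T B B B B with heB
  have hAK : 1 / K ≤ eA / a ^ 3 := by
    rw [div_le_div_iff₀ hK0 (by positivity)]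
    rw [div_le_iff₀ hK0] at hE
    linarith
  have hBle : eB / b ^ 3 ≤ 1 := by
    rw [div_le_one (by positivity)]
    exact hcube
  have hab1 : 1 ≤ a / b := by rw [one_le_div hb]; exact hba
  have h3 : a / b ≤ K ^ 100 := by
    have h1 : 1 / K * (a / b) ^ (1 / 100 : ℝ) ≤ 1 :=
      ((mul_le_mul_of_nonneg_right hAK (by positivity)).trans hen).trans hBle
    have h2 : (a / b) ^ (1 / 100 : ℝ) ≤ K := by
      rw [div_mul_eq_mul_div, one_mul, div_le_one hK0] at h1
      exact h1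
    have h4 : ((a / b) ^ (1 / 100 : ℝ)) ^ 100 ≤ K ^ 100 :=
      pow_le_pow_left₀ (by positivity) h2 100
    have h5 : ((a / b) ^ (1 / 100 : ℝ)) ^ 100 = a / b := by
      rw [← Real.rpow_natCast, ← Real.rpow_mul (by positivity)]
      norm_num
    rwa [h5] at h4
  have h1 : 1 ≤ (a / b) ^ (1 / 100 : ℝ) := Real.one_le_rpow hab1 (by norm_num)
  have h2 : 1 / K ≤ eB / b ^ 3 := by
    refine hAK.trans (le_trans ?_ hen)
    have h3 : 0 ≤ eA / a ^ 3 := by positivity
    nlinarith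
  -- the logarithm of the inverse of the normalised energy
  set k : ℝ := b ^ 3 / eB with hk
  have hk0 : 0 < k := by positivity
  have hk1 : 1 ≤ k := by rw [hk, one_le_div heb]; exact hcube
  have hkK : k ≤ K := by
    rw [hk, div_le_iff₀ heb]
    rw [div_le_div_iff₀ hK0 (by positivity)] at h2
    linarith
  have hL0 : 0 ≤ Real.log k := Real.log_nonneg hk1
  have hLK : Real.log k ≤ Real.log K := Real.log_le_log hk0 hkK
  have he : T B B B B = (B.card : ℝ) ^ 3 * Real.exp (-Real.log k) := by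
    rw [Real.exp_neg, Real.exp_log hk0, hk, ← heB, ← hbd]
    field_simp
  obtain ⟨S, hSB, hSne, hS1, hS2⟩ := Pool.Agent.Y154.BE.ext_sum hB hL0 he j
  have hS3 := Pool.Agent.Y154.BE.ext_energy hB hSB
  have hs0 : (0 : ℝ) < S.card := by exact_mod_cast Finset.card_pos.2 hSne
  have hsb : (S.card : ℝ) ≤ b := by rw [hbd]; exact_mod_cast Finset.card_le_card hSB
  set s : ℝ := (S.card : ℝ) with hsd
  set eS : ℝ := T S S S S with heS
  set θ : ℝ := (101 / 299) ^ j with hθ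
  have hθ0 : 0 ≤ θ := by positivity
  have hKθ : Real.exp (θ * Real.log k) ≤ K ^ θ := by
    rw [Real.rpow_def_of_pos hK0, mul_comm (Real.log K)]
    exact Real.exp_le_exp.2 (mul_le_mul_of_nonneg_left hLK hθ0)
  have hKθ0 : 0 < K ^ θ := Real.rpow_pos_of_pos hK0 _
  have hbs : b ≤ 3 * K ^ θ * s := by
    refine hS1.trans (mul_le_mul_of_nonneg_right ?_ hs0.le)
    exact mul_le_mul_of_nonneg_left hKθ (by norm_num)
  refine ⟨S, hSB.trans hBA, hSne, ?_, ?_, ?_⟩
  · -- size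
    rw [div_le_iff₀ hb] at h3
    have e1 : K ^ (100 + θ) = K ^ 100 * K ^ θ := by
      rw [Real.rpow_add hK0]
      congr 1
      exact_mod_cast Real.rpow_natCast K 100
    rw [e1, div_le_iff₀ (by positivity)]
    calc a ≤ K ^ 100 * b := h3
      _ ≤ K ^ 100 * (3 * K ^ θ * s) := mul_le_mul_of_nonneg_left hbs (by positivity)
      _ = s * (3 * (K ^ 100 * K ^ θ)) := by ring
  · -- energy
    have hbs1 : 1 ≤ b / s := by rw [one_le_div hs0]; exact hsb
    have h4 : (a / s) ^ (1 / 100 : ℝ) ≤ (a / b) ^ (1 / 100 : ℝ) * (b / s) := by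
      have e1 : a / s = (a / b) * (b / s) := by field_simp
      rw [e1, Real.mul_rpow (div_pos ha hb).le (div_pos hb hs0).le]
      refine mul_le_mul_of_nonneg_left ?_ (Real.rpow_nonneg (div_pos ha hb).le _)
      calc (b / s) ^ (1 / 100 : ℝ) ≤ (b / s) ^ (1 : ℝ) :=
            Real.rpow_le_rpow_of_exponent_le hbs1 (by norm_num)
        _ = b / s := Real.rpow_one _
    have h5 : eB / b ^ 3 * (b / s) ≤ 30 * (K ^ θ) ^ 2 * (eS / s ^ 3) := by
      have h6 : b ^ 2 ≤ 9 * (K ^ θ) ^ 2 * s ^ 2 := by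
        calc b ^ 2 ≤ (3 * K ^ θ * s) ^ 2 := pow_le_pow_left₀ hb.le hbs 2
          _ = _ := by ring
      have h7 : 3 / 10 * (s ^ 4 * eB) ≤ eS * b ^ 4 := by
        have h8 := mul_le_mul_of_nonneg_right hS3 (pow_pos hb 4).le
        have e2 : 3 / 10 * (s / b) ^ 4 * eB * b ^ 4 = 3 / 10 * (s ^ 4 * eB) := by
          field_simp
        rwa [e2] at h8
      have e3 : eB / b ^ 3 * (b / s) = eB / (b ^ 2 * s) := by field_simp
      have e4 : 30 * (K ^ θ) ^ 2 * (eS / s ^ 3) = 30 * (K ^ θ) ^ 2 * eS / s ^ 3 := by ring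
      rw [e3, e4, div_le_div_iff₀ (mul_pos (pow_pos hb 2) hs0) (pow_pos hs0 3)]
      -- eB * s ^ 3 ≤ 30 * (K ^ θ) ^ 2 * eS * (b ^ 2 * s)
      have heS0 : 0 < eS := T_pos hSne
      have h9 : eB * s ^ 3 * (3 / 10 * s) ≤ 30 * (K ^ θ) ^ 2 * eS * (b ^ 2 * s) * (3 / 10 * s) := by
        calc eB * s ^ 3 * (3 / 10 * s) = 3 / 10 * (s ^ 4 * eB) := by ring
          _ ≤ eS * b ^ 4 := h7
          _ = eS * b ^ 2 * b ^ 2 := by ring
          _ ≤ eS * b ^ 2 * (9 * (K ^ θ) ^ 2 * s ^ 2) :=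
              mul_le_mul_of_nonneg_left h6 (mul_pos heS0 (pow_pos hb 2)).le
          _ = 30 * (K ^ θ) ^ 2 * eS * (b ^ 2 * s) * (3 / 10 * s) := by ring
      exact le_of_mul_le_mul_right h9 (mul_pos (by norm_num) hs0)
    have e5 : K ^ (2 * θ) = (K ^ θ) ^ 2 := by
      rw [mul_comm, Real.rpow_mul hK0.le]
      exact_mod_cast Real.rpow_natCast (K ^ θ) 2
    rw [e5]
    refine le_trans ?_ h5
    calc eA / a ^ 3 * (a / s) ^ (1 / 100 : ℝ)
        ≤ eA / a ^ 3 * ((a / b) ^ (1 / 100 : ℝ) * (b / s)) :=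
          mul_le_mul_of_nonneg_left h4 (div_pos hea (pow_pos ha 3)).le
      _ = (eA / a ^ 3 * (a / b) ^ (1 / 100 : ℝ)) * (b / s) := by ring
      _ ≤ eB / b ^ 3 * (b / s) := mul_le_mul_of_nonneg_right hen (div_pos hb hs0).le
  · -- doubling
    refine hS2.trans (mul_le_mul_of_nonneg_right ?_ hs0.le)
    rw [Real.exp_add, mul_comm]
    refine mul_le_mul_of_nonneg_left ?_ (Real.exp_pos _).le
    calc Real.exp ((16 * (j : ℝ) + 20) * Real.log k)
        ≤ Real.exp (((16 * j + 20 : ℕ) : ℝ) * Real.log K) := by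
          refine Real.exp_le_exp.2 ?_
          push_cast
          exact mul_le_mul_of_nonneg_left hLK (by positivity)
      _ = K ^ (16 * j + 20) := by
          rw [Real.exp_nat_mul, Real.exp_log hK0]

end Pool.Agent.Results.MP_be00de_co.SmallEnergyLoss
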